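import Mathlib.Data.Real.Basic
import Mathlib.Data.Fintype.Pi
import Mathlib.Data.Fintype.Powerset
import Mathlib.Logic.Relation
import Mathlib.Tactic.FinCases
import Mathlib.Tactic.NormNum
import Mathlib.SetTheory.Cardinal.Finite

/-!
# Strict equilibria in all induced subgames do not imply generalized weak acyclicity

A finite game with player set `ι` is given by finite nonempty action sets and real rewards.
We exhibit a game with three players and three actions per player in which every induced subgame
has a strict pure Nash equilibrium, but which is not generalized weakly acyclic.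
-/

namespace Pool.Agent.Results.MP_f1fe0b_lc.ThreeByThreeByThree

/-- A finite normal-form game with player set `ι`. -/
structure Game (ι : Type) where
  /-- the action set of each player -/
  Act : ι → Type
  /-- action sets are finite -/
  fin : ∀ i, Finite (Act i)
  /-- action sets are nonempty -/
  nonempty : ∀ i, Nonempty (Act i)
  /-- the reward of each player at each action profile -/
  reward : ι → (∀ i, Act i) → ℝ

namespace Game

variable {ι : Type} [DecidableEq ι] (Γ : Game ι)

/-- Action profiles. -/
abbrev Profile : Type := ∀ i, Γ.Act i

/-- `Best^i(a^{-i})`: the actions of player `i` that maximise the reward of `i`, the other players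
playing as in `a`. -/
def Best (i : ι) (a : Γ.Profile) : Set (Γ.Act i) :=
  {b | ∀ c : Γ.Act i, Γ.reward i (Function.update a i c) ≤ Γ.reward i (Function.update a i b)}

/-- Player `i` is satisfied at `a`. -/
def Satisfied (i : ι) (a : Γ.Profile) : Prop := a i ∈ Γ.Best i a

/-- Pure Nash equilibrium. -/
def Nash (a : Γ.Profile) : Prop := ∀ i, Γ.Satisfied i a

/-- Strict pure Nash equilibrium: every player's action is the unique best response. -/
def StrictNash (a : Γ.Profile) : Prop := ∀ i, Γ.Best i a = {a i}

/-- The profile in which the players of `N` play `b` and the others play as in `a`. -/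
def glue (N : Finset ι) (a : Γ.Profile) (b : ∀ i : {i // i ∈ N}, Γ.Act i) : Γ.Profile :=
  fun i => if h : i ∈ N then b ⟨i, h⟩ else a i

/-- The subgame induced by fixing the actions of the players outside `N` as in `a`. -/
def induced (N : Finset ι) (a : Γ.Profile) : Game {i // i ∈ N} where
  Act i := Γ.Act i
  fin i := Γ.fin i
  nonempty i := Γ.nonempty i
  reward i b := Γ.reward i (Γ.glue N a b)

/-- Edges of the satisficing graph: satisfied players keep their actions. -/
def SatEdge (a a' : Γ.Profile) : Prop := ∀ i, Γ.Satisfied i a → a' i = a i

/-- `Γ` is generalized weakly acyclic: from every profile some directed path of the satisficing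
graph ends at a pure Nash equilibrium. -/
def GeneralizedWeaklyAcyclic : Prop :=
  ∀ a : Γ.Profile, ∃ b : Γ.Profile, Relation.ReflTransGen Γ.SatEdge a b ∧ Γ.Nash b

theorem glue_update (N : Finset ι) (a : Γ.Profile) (b : ∀ i : {i // i ∈ N}, Γ.Act i)
    (i : {i // i ∈ N}) (c : Γ.Act i) :
    Γ.glue N a (Function.update b i c) = Function.update (Γ.glue N a b) i.1 c := by
  funext j
  by_cases hj : j = i.1
  · subst hj
    simp [Game.glue]
  · rw [Function.update_of_ne hj]
    unfold Game.glue
    by_cases hN : j ∈ N
    · rw [dif_pos hN, dif_pos hN, Function.update_of_ne]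
      intro h
      exact hj (congrArg Subtype.val h)
    · rw [dif_neg hN, dif_neg hN]

theorem glue_restrict (N : Finset ι) (a b : Γ.Profile) (h : ∀ i, i ∉ N → b i = a i) :
    Γ.glue N a (fun i => b i.1) = b := by
  funext j
  unfold Game.glue
  by_cases hN : j ∈ N
  · rw [dif_pos hN]
  · rw [dif_neg hN, h j hN]

theorem strict_of (N : Finset ι) (a b : Γ.Profile) (h : ∀ i, i ∉ N → b i = a i)
    (hb : ∀ i, i ∈ N → Γ.Best i b = {b i}) :
    (Γ.induced N a).StrictNash (fun i => b i.1) := by
  intro i
  have hglue := Γ.glue_restrict N a b h
  have e : ∀ c : Γ.Act i.1, (Γ.induced N a).reward i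
      (Function.update (β := fun i : {i // i ∈ N} => Γ.Act i) (fun i => b i.1) i c) =
      Γ.reward i.1 (Function.update b i.1 c) := by
    intro c
    have h1 := Γ.glue_update N a (fun i => b i.1) i c
    rw [hglue] at h1
    exact congrArg (Γ.reward i.1) h1
  have key : (Γ.induced N a).Best i (fun i => b i.1) = Γ.Best i.1 b := by
    ext x
    constructor
    · intro hx c
      have h1 := hx c
      exact (e c).symm.le.trans (h1.trans (e x).le)
    · intro hx c
      have h1 := hx c
      exact (e c).le.trans (h1.trans (e x).symm.le)
  rw [key, hb i.1 i.2]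
  rfl

end Game

/-- The number of a profile. -/
def code (a : Fin 3 → Fin 3) : ℕ := 9 * (a 0).val + 3 * (a 1).val + (a 2).val

/-- Bit masks of the sets of profiles at which player `i` plays the best response. -/
def mask (i : Fin 3) : ℕ := if i = 0 then 15435777 else if i = 1 then 44155041 else 38422689

/-- `good i a` : player `i` plays a best response at `a`. -/
def good (i : Fin 3) (a : Fin 3 → Fin 3) : Bool := (mask i).testBit (code a)

/-- The trap: a set of profiles closed under the edges of the satisficing graph. -/
def trap (a : Fin 3 → Fin 3) : Bool := Nat.testBit 49006752 (code a)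

/-- The starting profile `(0, 1, 2)`. -/
def start : Fin 3 → Fin 3 := fun i => i

/-- The game. -/
@[reducible] def G : Game (Fin 3) where
  Act _ := Fin 3
  fin _ := inferInstance
  nonempty _ := inferInstance
  reward i a := if good i a = true then 1 else 0

theorem good_unique : ∀ (i : Fin 3) (a : Fin 3 → Fin 3),
    ∃ x : Fin 3, ∀ c : Fin 3, good i (Function.update a i c) = true ↔ c = x := by
  decide +kernel

theorem sub_nash : ∀ (N : Finset (Fin 3)) (a : Fin 3 → Fin 3), ∃ b : Fin 3 → Fin 3,
    (∀ i : Fin 3, (i ∈ N ∧ good i b = true) ∨ (i ∉ N ∧ b i = a i)) := by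
  decide +kernel

theorem trap_closed : ∀ (a a' : Fin 3 → Fin 3), trap a = true →
    (∀ i, good i a = true → a' i = a i) → trap a' = true := by
  decide +kernel

theorem trap_no_nash : ∀ (a : Fin 3 → Fin 3), trap a = true → ¬ ∀ i, good i a = true := by
  decide +kernel

theorem best_iff (i : Fin 3) (a : Fin 3 → Fin 3) (b : Fin 3) :
    b ∈ G.Best i a ↔ good i (Function.update a i b) = true := by
  obtain ⟨x, hx⟩ := good_unique i a
  constructor
  · intro h
    by_contra hb
    have h1 := h x
    have h2 : good i (Function.update a i x) = true := (hx x).2 rfl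
    change (if good i (Function.update a i x) = true then (1 : ℝ) else 0) ≤
      (if good i (Function.update a i b) = true then (1 : ℝ) else 0) at h1
    rw [if_pos h2, if_neg hb] at h1
    norm_num at h1
  · intro h c
    change (if good i (Function.update a i c) = true then (1 : ℝ) else 0) ≤
      (if good i (Function.update a i b) = true then (1 : ℝ) else 0)
    rw [if_pos h]
    split_ifs <;> norm_num

theorem satisfied_iff (i : Fin 3) (a : Fin 3 → Fin 3) :
    G.Satisfied i a ↔ good i a = true := by
  have h := best_iff i a (a i)
  rw [Function.update_eq_self] at h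
  exact h

theorem best_of_good (i : Fin 3) (a : Fin 3 → Fin 3) (h : good i a = true) :
    G.Best i a = {a i} := by
  obtain ⟨x, hx⟩ := good_unique i a
  have hax : a i = x := (hx (a i)).1 (by rw [Function.update_eq_self]; exact h)
  ext b
  rw [best_iff, hx b, Set.mem_singleton_iff, hax]

/-- There is a finite game (three players, three actions each) all of whose induced subgames have
a strict pure Nash equilibrium and which is not generalized weakly acyclic. -/
theorem result :
    ∃ Γ : Game (Fin 3), (∀ i, Nat.card (Γ.Act i) = 3) ∧
      (∀ (N : Finset (Fin 3)) (a : Γ.Profile), ∃ b, (Γ.induced N a).StrictNash b) ∧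
      ¬ Γ.GeneralizedWeaklyAcyclic := by
  refine ⟨G, fun i => ?_, ?_, ?_⟩
  · change Nat.card (Fin 3) = 3
    simp
  · intro N a
    obtain ⟨b, hb⟩ := sub_nash N a
    refine ⟨fun i => b i.1, G.strict_of N a b ?_ ?_⟩
    · intro i hi
      rcases hb i with h | h
      · exact absurd h.1 hi
      · exact h.2
    · intro i hi
      rcases hb i with h | h
      · exact best_of_good i b h.2
      · exact absurd hi h.1
  · intro h
    obtain ⟨b, hb, hn⟩ := h start
    have h0 : trap start = true := by decide +kernel
    have hinv : ∀ b : G.Profile, Relation.ReflTransGen G.SatEdge start b →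
        trap b = true := by
      intro b hb
      induction hb with
      | refl => exact h0
      | tail _ hstep ih =>
        exact trap_closed _ _ ih (fun i hi => hstep i ((satisfied_iff i _).2 hi))
    exact trap_no_nash b (hinv b hb) (fun i => (satisfied_iff i b).1 (hn i))

end Pool.Agent.Results.MP_f1fe0b_lc.ThreeByThreeByThree
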